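import Pool.Agent.H29.FL4.Stmts

/-!
# Row ABS of the board fl4: few indices with equal flats
-/

set_option autoImplicit false

open Matrix MeasureTheory

namespace Pool.FL4

open Pool.FLT

theorem abs (hP : PATStmt) : ABSStmt := by
  classical
  intro S g K hK hS Γ S' hS' hfl
  rcases S'.eq_empty_or_nonempty with h0 | ⟨s0, hs0⟩
  · rw [h0, Finset.card_empty, Nat.cast_zero]
    positivity
  have hEQF : EQFStmt := eqf (mon nul)
  have h2 : ∀ s ∈ S', ∃ (γ : GZ 4) (M : GR 4) (σ : Equiv.Perm (Fin 4)) (e : Fin 4 → ℝ),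
      g s = inc 4 γ * g s0 * M ∧ (∀ j, e j ≠ 0) ∧
      ∀ i j, (M : Matrix (Fin 4) (Fin 4) ℝ) i j = if i = σ j then e j else 0 := by
    intro s hs
    obtain ⟨γ, M, hM, h⟩ := hEQF 4 (by norm_num) (g s) (g s0) (fl_top_of_eq (hfl s hs s0 hs0))
    obtain ⟨σ, e, he, h'⟩ := hP M hM
    exact ⟨γ, M, σ, e, h, he, h'⟩
  choose! γ M σ e h3 h4 h5 using h2
  have h6 : ∀ τ : Equiv.Perm (Fin 4), ((S'.filter fun s => σ s = τ).card : ℝ) ≤ K := by
    intro τ
    rcases (S'.filter fun s => σ s = τ).eq_empty_or_nonempty with h | ⟨s1, hs1⟩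
    · rw [h, Finset.card_empty, Nat.cast_zero]
      exact hK
    · rw [Finset.mem_filter] at hs1
      refine hS s1 (hS' hs1.1) _ ((Finset.filter_subset _ _).trans hS') ?_
      intro s hs
      rw [Finset.mem_filter] at hs
      refine ⟨γ s * (γ s1)⁻¹, fun j => e s j / e s1 j, ?_⟩
      have hM : (M s : Matrix (Fin 4) (Fin 4) ℝ) =
          (M s1 : Matrix (Fin 4) (Fin 4) ℝ) * diagonal (fun j => e s j / e s1 j) := by
        ext i j
        rw [Matrix.mul_diagonal, h5 s hs.1, h5 s1 hs1.1, hs.2, hs1.2]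
        by_cases h : i = τ j
        · rw [if_pos h, if_pos h, mul_div_cancel₀ _ (h4 s1 hs1.1 j)]
        · rw [if_neg h, if_neg h, zero_mul]
      have h7 : inc 4 (γ s * (γ s1)⁻¹) * g s1 = inc 4 (γ s) * g s0 * M s1 := by
        rw [h3 s1 hs1.1, map_mul, map_inv]
        group
      have h8 := congrArg (fun u : GR 4 => (u : Matrix (Fin 4) (Fin 4) ℝ)) h7
      have h9 := congrArg (fun u : GR 4 => (u : Matrix (Fin 4) (Fin 4) ℝ)) (h3 s hs.1)
      simp only [Matrix.SpecialLinearGroup.coe_mul] at h8 h9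
      rw [h9, hM, h8]
      simp only [Matrix.mul_assoc]
  have h10 := Finset.card_eq_sum_card_fiberwise (f := σ) (s := S')
    (t := (Finset.univ : Finset (Equiv.Perm (Fin 4)))) (fun s _ => Finset.mem_univ _)
  rw [h10, Nat.cast_sum]
  refine (Finset.sum_le_sum fun τ _ => h6 τ).trans ?_
  rw [Finset.sum_const, Finset.card_univ, Fintype.card_perm, Fintype.card_fin, nsmul_eq_mul]
  norm_num [Nat.factorial]

end Pool.FL4
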