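import Pool.Agent.H29.FL4.Stmts

/-!
# Row PAT of the board fl4: a monomial matrix is a permutation matrix times a diagonal matrix
-/

set_option autoImplicit false

open Matrix MeasureTheory

namespace Pool.FL4

open Pool.FLT

theorem pat : PATStmt := by
  intro M hM
  have hdet : (M : Matrix (Fin 4) (Fin 4) ℝ).det = 1 := M.2
  have hcol : ∀ j, ∃ i, (M : Matrix (Fin 4) (Fin 4) ℝ) i j ≠ 0 := by
    intro j
    by_contra hcon
    push Not at hcon
    have h := Matrix.det_eq_zero_of_column_eq_zero j hcon
    rw [hdet] at h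
    exact one_ne_zero h
  choose f hf using hcol
  have hz : ∀ i j, i ≠ f j → (M : Matrix (Fin 4) (Fin 4) ℝ) i j = 0 := by
    intro i j hij
    rcases mul_eq_zero.1 (hM i (f j) j hij) with h | h
    · exact h
    · exact absurd h (hf j)
  have hsur : Function.Surjective f := by
    intro i
    by_contra hcon
    push Not at hcon
    have h := Matrix.det_eq_zero_of_row_eq_zero (A := (M : Matrix (Fin 4) (Fin 4) ℝ)) i
      (fun j => hz i j (Ne.symm (hcon j)))
    rw [hdet] at h
    exact one_ne_zero h
  refine ⟨Equiv.ofBijective f ⟨Finite.injective_iff_surjective.2 hsur, hsur⟩,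
    fun j => (M : Matrix (Fin 4) (Fin 4) ℝ) (f j) j, hf, ?_⟩
  intro i j
  show (M : Matrix (Fin 4) (Fin 4) ℝ) i j =
    if i = f j then (M : Matrix (Fin 4) (Fin 4) ℝ) (f j) j else 0
  by_cases h : i = f j
  · rw [if_pos h, h]
  · rw [if_neg h, hz i j h]

end Pool.FL4
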