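import Pool.Agent.H29.FL4.Stmts

/-!
# Row RED of the board fl4: reduction of the multipliers by units
-/

set_option autoImplicit false

open Matrix MeasureTheory

namespace Pool.FL4

open Pool.FLT

namespace H31

theorem eqv_mul {i : ℕ} {s s' s'' : ℤ} {a d : Fin 4 → ℝ} (ha : Eqv i s s' a)
    (hd : Eqv i s' s'' d) : Eqv i s s'' (fun j => a j * d j) := by
  refine ⟨fun j => mul_ne_zero (ha.1 j) (hd.1 j), fun z => ?_⟩
  rw [ha.2 z, hd.2 (fun j => z j * a j)]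
  have h : (fun j => z j * a j * d j) = fun j => z j * (a j * d j) := by
    funext j
    ring
  rw [h]

theorem eqv_inv {i : ℕ} {s : ℤ} {a : Fin 4 → ℝ} (ha : Eqv i s s a) :
    Eqv i s s (fun j => (a j)⁻¹) := by
  refine ⟨fun j => inv_ne_zero (ha.1 j), fun z => ?_⟩
  rw [ha.2 (fun j => z j * (a j)⁻¹)]
  have h : (fun j => z j * (a j)⁻¹ * a j) = z := by
    funext j
    rw [mul_assoc, inv_mul_cancel₀ (ha.1 j), mul_one]
  rw [h]

theorem eqv_one (i : ℕ) (s : ℤ) : Eqv i s s (fun _ => 1) := by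
  refine ⟨fun _ => one_ne_zero, fun z => ?_⟩
  have h : (fun j => z j * 1) = z := by
    funext j
    rw [mul_one]
  rw [h]

theorem eqv_pow {i : ℕ} {s : ℤ} {a : Fin 4 → ℝ} (ha : Eqv i s s a) (n : ℕ) :
    Eqv i s s (fun j => a j ^ n) := by
  induction n with
  | zero =>
    have h := eqv_one i s
    simpa using h
  | succ n ih =>
    have h := eqv_mul ih ha
    simpa [pow_succ] using h

theorem eqv_zpow {i : ℕ} {s : ℤ} {a : Fin 4 → ℝ} (ha : Eqv i s s a) (n : ℤ) :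
    Eqv i s s (fun j => a j ^ n) := by
  rcases n with n | n
  · simpa using eqv_pow ha n
  · have h := eqv_inv (eqv_pow ha (n + 1))
    simpa [zpow_negSucc] using h

theorem exp_int (n : ℤ) (y : ℝ) : Real.exp (n * y) = Real.exp y ^ n := by
  rw [mul_comm, Real.exp_mul, Real.rpow_intCast]

theorem norm_le {x : aa 4} {R : ℝ} (hR : 0 ≤ R) (h : ∀ j, |co x j| ≤ R) : ‖x‖ ≤ 2 * R := by
  have h1 : ‖x‖ = ‖(x : EuclideanSpace ℝ (Fin 4))‖ := rfl
  rw [h1, EuclideanSpace.norm_eq]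
  refine Real.sqrt_le_iff.2 ⟨by linarith, ?_⟩
  calc ∑ j, ‖(x : EuclideanSpace ℝ (Fin 4)) j‖ ^ 2 ≤ ∑ _j : Fin 4, R ^ 2 := by
        refine Finset.sum_le_sum fun j _ => ?_
        rw [Real.norm_eq_abs]
        exact pow_le_pow_left₀ (abs_nonneg _) (h j) 2
    _ = (2 * R) ^ 2 := by
        rw [Finset.sum_const, Finset.card_univ, Fintype.card_fin, nsmul_eq_mul]
        push_cast
        ring

end H31

open H31 in
theorem red (hB : BOXStmt) (hU : UNIStmt) (hC : CONStmt) : REDStmt := by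
  refine ⟨82, by norm_num, ?_⟩
  intro i hi s hs s' hs' d hd
  have hiR : (1 : ℝ) ≤ i := by exact_mod_cast hi
  obtain ⟨x0, -, hx0⟩ := hC i hi s hs s' hs' d hd
  obtain ⟨A, B, C, D, w, x, hA, hB', hC', hD, hne, c0, c1, c2, hw, hE⟩ := hU i hi
  obtain ⟨n0, n1, n2, p, a, b, hp, ha, hb, hcor⟩ := hB 1 one_pos (20 * i) A B C D
    (by linarith) hA hB' hC' hD hne (x 0) (x 1) (x 2) x0 c0 c1 c2
  simp only [Nat.cast_one, one_mul, mul_one] at hp ha hb hcor
  obtain ⟨d', hd'⟩ : ∃ d' : Fin 4 → ℝ, d' = fun j => (w 0 j ^ n0 * (w 1 j ^ n1 * w 2 j ^ n2)) * d j :=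
    ⟨_, rfl⟩
  have hEd : Eqv i (s : ℤ) (s' : ℤ) d' := by
    rw [hd']
    exact eqv_mul (eqv_mul (eqv_zpow (hE 0 s) n0) (eqv_mul (eqv_zpow (hE 1 s) n1)
      (eqv_zpow (hE 2 s) n2))) hd
  obtain ⟨x', hx', hxd⟩ := hC i hi s hs s' hs' d' hEd
  have habs : ∀ j, |d' j| =
      Real.exp (co (x0 + (n0 : ℝ) • x 0 + (n1 : ℝ) • x 1 + (n2 : ℝ) • x 2) j) := by
    intro j
    have e1 : co (x0 + (n0 : ℝ) • x 0 + (n1 : ℝ) • x 1 + (n2 : ℝ) • x 2) j =
        co x0 j + n0 * co (x 0) j + n1 * co (x 1) j + n2 * co (x 2) j := by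
      simp [co]
    rw [e1, hd']
    show |w 0 j ^ n0 * (w 1 j ^ n1 * w 2 j ^ n2) * d j| = _
    rw [abs_mul, abs_mul, abs_mul, abs_zpow, abs_zpow, abs_zpow, hw, hw, hw, hx0,
      Real.exp_add, Real.exp_add, Real.exp_add, exp_int, exp_int, exp_int]
    ring
  have hco : ∀ j, co x' j = co (x0 + (n0 : ℝ) • x 0 + (n1 : ℝ) • x 1 + (n2 : ℝ) • x 2) j := by
    intro j
    exact Real.exp_injective ((hxd j).symm.trans (habs j))
  refine ⟨d', x', hEd, hx', ?_, hxd⟩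
  have hR : (0 : ℝ) ≤ 41 * i := by linarith
  have h82 : (82 : ℝ) * i = 2 * (41 * i) := by ring
  rw [h82]
  refine norm_le hR fun j => ?_
  rw [hco j]
  obtain ⟨k0, k1, k2, k3⟩ := hcor
  have hab : |p| + |a| ≤ 41 * i := by linarith
  have hbb : |p| + |b| ≤ 41 * i := by linarith
  have q0 : ∀ u v : ℝ, |u + v| ≤ |u| + |v| := fun u v => abs_add_le u v
  have q1 : ∀ u v : ℝ, |u - v| ≤ |u| + |v| := fun u v => abs_sub u v
  match j with
  | 0 => rw [k0]; exact (q0 _ _).trans hab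
  | 1 => rw [k1]; exact (q1 _ _).trans hab
  | 2 => rw [k2]; exact (q0 _ _).trans (by rw [abs_neg]; exact hbb)
  | 3 => rw [k3]; exact (q1 _ _).trans (by rw [abs_neg]; exact hbb)

end Pool.FL4
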